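import Mathlib

/-!
# MP_e77370_co, Q1 disproved

Take `t = 4`, `q = 2`, all `k_j = 4`, `n = 8` and let every `F_j` be the family of the 4-subsets of
`[8]` that share at least three elements with a fixed 4-set.  Then the total size is `68`, while
`M_1 = 56` and `M_2 = 60`.
-/

namespace Pool.Agent.Results.MP_e77370_co.CrossIntersecting

open Finset

/-- `F` and `G` are cross-`q`-intersecting. -/
def Cross {n : ℕ} (q : ℕ) (F G : Finset (Finset (Fin n))) : Prop :=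
  ∀ A ∈ F, ∀ B ∈ G, q ≤ (A ∩ B).card

/-- The number `M_1` of the problem, for the sizes `k 1, …, k t`. -/
def M₁ (n q t : ℕ) (k : ℕ → ℕ) : ℤ :=
  (n.choose (k 1) : ℤ) - ∑ j ∈ range q, ((k t).choose j * (n - k t).choose (k 1 - j) : ℤ) +
    ∑ j ∈ Icc 2 t, ((n - k t).choose (k j - k t) : ℤ)

/-- The number `M_2` of the problem, for the sizes `k 1, …, k t`. -/
def M₂ (n q t : ℕ) (k : ℕ → ℕ) : ℤ := ∑ j ∈ Icc 1 t, ((n - q).choose (k j - q) : ℤ)

/-- 4-subsets of `Fin 8` with at least three elements in `{0,1,2,3}`. -/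
def Fam : Finset (Finset (Fin 8)) :=
  (powersetCard 4 univ).filter fun A => 3 ≤ (A ∩ {0, 1, 2, 3}).card

lemma fam_card : Fam.card = 17 := by decide +kernel

lemma fam_cross : Cross 2 Fam Fam := by
  intro A hA B hB
  have hA' : 3 ≤ (A ∩ {0, 1, 2, 3}).card := (mem_filter.1 hA).2
  have hB' : 3 ≤ (B ∩ {0, 1, 2, 3}).card := (mem_filter.1 hB).2
  have h1 := card_union_add_card_inter (A ∩ {0, 1, 2, 3}) (B ∩ {0, 1, 2, 3})
  have h2 : ((A ∩ {0, 1, 2, 3}) ∪ (B ∩ {0, 1, 2, 3})).card ≤ ({0, 1, 2, 3} : Finset (Fin 8)).card :=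
    card_le_card (union_subset inter_subset_right inter_subset_right)
  have h3 : ({0, 1, 2, 3} : Finset (Fin 8)).card = 4 := by decide
  have h4 : ((A ∩ {0, 1, 2, 3}) ∩ (B ∩ {0, 1, 2, 3})).card ≤ (A ∩ B).card :=
    card_le_card (inter_subset_inter inter_subset_left inter_subset_left)
  omega

/-- Q1 is false, even for `n ≥ k_1 + k_2` (so that all size conditions `n ≥ k_1 + k_2 - q + 1`
hold with room to spare). -/
theorem result : ∃ (t q n : ℕ) (k : ℕ → ℕ), 2 ≤ t ∧ 1 ≤ q ∧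
    (∀ i j, 1 ≤ i → i ≤ j → j ≤ t → k j ≤ k i) ∧ q + 1 ≤ k t ∧
    k 1 + k 2 + 1 ≤ n + q ∧ k 1 + k 2 ≤ n ∧
    ∃ F : ℕ → Finset (Finset (Fin n)),
      (∀ j ∈ Icc 1 t, F j ⊆ powersetCard (k j) univ) ∧
      (∀ j ∈ Icc 1 t, (F j).Nonempty) ∧
      (∀ i ∈ Icc 1 t, ∀ j ∈ Icc 1 t, i ≠ j → Cross q (F i) (F j)) ∧
      max (M₁ n q t k) (M₂ n q t k) < ∑ j ∈ Icc 1 t, ((F j).card : ℤ) := by
  refine ⟨4, 2, 8, fun _ => 4, by norm_num, by norm_num, fun _ _ _ _ _ => le_rfl, by norm_num,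
    by norm_num, by norm_num, fun _ => Fam, ?_, ?_, ?_, ?_⟩
  · intro j _
    exact filter_subset _ _
  · intro j _
    rw [← card_pos, fam_card]; norm_num
  · intro i _ j _ _
    exact fam_cross
  · simp only [fam_card]
    decide +kernel

end Pool.Agent.Results.MP_e77370_co.CrossIntersecting
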